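import Pool.Agent.Helper99.MKV.GoalsC

open Finset

namespace Pool.Agent.Helper88.MKV

open Pool.Agent.Helper99.MKV Pool.Agent.Helper99.EXC Pool.Agent.Helper99.ERW

lemma bx_mono (b : ℕ) {i j : ℕ} (h : i ≤ j) {x : Site 2} (hx : x ∈ Bx b i) : x ∈ Bx b j := by
  unfold Bx at hx ⊢
  rw [mem_box] at hx ⊢
  intro l
  have h1 : (b * 2 ^ i : ℕ) ≤ b * 2 ^ j :=
    Nat.mul_le_mul_left _ (Nat.pow_le_pow_right (by norm_num) h)
  have h2 : ((b * 2 ^ i : ℕ) : ℤ) ≤ ((b * 2 ^ j : ℕ) : ℤ) := by exact_mod_cast h1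
  have := hx l
  exact this.trans h2

lemma La_sub (a : ℝ) (f g : Site 2 → ℝ) (x : Site 2) :
    La a (fun x => f x - g x) x = La a f x - La a g x := by
  unfold La secondDiff
  ring

lemma Df_sub (f g : Site 2 → ℝ) (x : Site 2) :
    Df (fun x => f x - g x) x = Df f x - Df g x := by
  unfold Df secondDiff
  ring

lemma tel (Φ : ℕ → Site 2 → ℝ) (x : Site 2) {k1 s : ℕ} (h : k1 ≤ s) :
    ∑ k ∈ Finset.Ico k1 s, hk Φ k x = Df (Φ k1) x - Df (Φ s) x := by
  induction s, h using Nat.le_induction with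
  | base => simp
  | succ s hs ih =>
    rw [Finset.sum_Ico_succ_top hs, ih]
    unfold hk
    ring

theorem VSM (hDRG : DRG_stmt) : VSM_stmt := by
  intro E ι _ U a S φ Φ κ C b k1 B hD hS s hs N s0 hs0
  set Λ : Finset (Site 2) := Bx b (s + 1) with hΛ
  have hC : 1 ≤ C := hS.cone
  have hB : 1 ≤ B := hD.b1
  have hU := hD.ok
  set G0 : MSt E → ℝ := VV S (Bx b k1) (fun x => Df φ x - Df (Φ k1) x) with hG0
  -- drifts of the charges
  have hck : ∀ k, k1 ≤ k → ∀ t : MSt E, Dr U (ck Φ S b k) t = dd U a t * hk Φ k t.1 := by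
    intro k hk1 t
    have h := (hDRG E ι U hU t).1 S (Bx b k) (hk Φ k)
    unfold ck
    rw [h]
    by_cases hx : t.1 ∈ Bx b k
    · rw [if_pos hx, hD.ps]
      unfold Pool.Agent.Helper99.MKV.dd
      ring
    · rw [if_neg hx, hS.hS k hk1 _ hx]
      ring
  have hdG : ∀ t : MSt E, Dr U G0 t = dd U a t * (Df φ t.1 - Df (Φ k1) t.1) := by
    intro t
    have h := (hDRG E ι U hU t).1 S (Bx b k1) (fun x => Df φ x - Df (Φ k1) x)
    rw [hG0, h]
    by_cases hx : t.1 ∈ Bx b k1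
    · rw [if_pos hx, hD.ps]
      unfold Pool.Agent.Helper99.MKV.dd
      ring
    · rw [if_neg hx, hS.dout k1 le_rfl _ hx]
      ring
  have hG0b : ∀ t, |G0 t| ≤ 2 * B * C * (Bx b k1).card := by
    intro t
    rw [hG0]
    unfold VV
    refine (Finset.abs_sum_le_sum_abs _ _).trans ?_
    have : ∀ z ∈ Bx b k1, |(Df φ z - Df (Φ k1) z) * S z (t.2 z)| ≤ 2 * B * C := by
      intro z _
      rw [abs_mul]
      have h1 : |Df φ z| ≤ C := by
        refine (hS.hbd z).trans (div_le_self (by linarith) ?_)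
        have : 0 ≤ nm z := by
          unfold nm
          exact le_max_of_le_left (abs_nonneg _)
        nlinarith
      have h2 : |Df (Φ k1) z| ≤ C := by
        refine (hS.dphi1 k1 le_rfl z).trans (div_le_self (by linarith) ?_)
        exact one_le_pow₀ (by norm_num)
      have h3 : |Df φ z - Df (Φ k1) z| ≤ 2 * C := by
        rw [abs_le] at h1 h2 ⊢
        constructor <;> linarith [h1.1, h1.2, h2.1, h2.2]
      have h4 := hD.bd z (t.2 z)
      calc |Df φ z - Df (Φ k1) z| * |S z (t.2 z)| ≤ 2 * C * B :=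
            mul_le_mul h3 h4 (abs_nonneg _) (by linarith)
        _ = 2 * B * C := by ring
    refine (Finset.sum_le_sum this).trans ?_
    rw [Finset.sum_const, nsmul_eq_mul]
    linarith
  -- the main function
  set f : Site 2 → ℝ := fun x => φ x - Φ s x with hf
  set H : MSt E → ℝ := fun t => (if t.1 = 0 then 1 else 0) - La a (Φ s) t.1 with hH
  set Fc : MSt E → ℝ := fun t => ∑ k ∈ Finset.Ico k1 s, ck Φ S b k t with hFc
  set F' : MSt E → ℝ := fun t => (f t.1 - G0 t) - Fc t with hF'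
  have hDF : Dr U F' = H := by
    funext t
    have e1 : Dr U F' t = Dr U (fun t => f t.1 - G0 t) t - Dr U Fc t :=
      Dr_sub (fun t => f t.1 - G0 t) Fc t
    have e2 : Dr U (fun t => f t.1 - G0 t) t = Dr U (fun t => f t.1) t - Dr U G0 t :=
      Dr_sub (fun t => f t.1) G0 t
    have e3 : Dr U (fun t : MSt E => f t.1) t = La a f t.1 + dd U a t * Df f t.1 := by
      unfold Dr
      rw [stp_pos hU a f t]
      ring
    have e4 : Dr U Fc t = ∑ k ∈ Finset.Ico k1 s, dd U a t * hk Φ k t.1 := by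
      unfold Dr
      rw [hFc]
      simp only
      rw [stp_sum, ← Finset.sum_sub_distrib]
      refine Finset.sum_congr rfl fun k hk => ?_
      exact hck k (Finset.mem_Ico.1 hk).1 t
    rw [← Finset.mul_sum, tel Φ t.1 hs] at e4
    rw [e1, e2, e3, e4, hdG, hf, La_sub, Df_sub, hS.lap, hH]
    ring
  have key := tele_Dr (U := U) Λ N F' s0
  rw [hDF] at key
  have k1' : Ex U Λ N F' s0 = (Ex U Λ N (fun t => f t.1) s0 - Ex U Λ N G0 s0) -
      Ex U Λ N Fc s0 := by
    have h1 := congrFun (Ex_sub (U := U) Λ N (fun t => f t.1 - G0 t) Fc) s0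
    have h2 := congrFun (Ex_sub (U := U) Λ N (fun t => f t.1) G0) s0
    rw [hF']
    rw [h1, h2]
  have k2 : Ex U Λ N Fc s0 = ∑ k ∈ Finset.Ico k1 s, Ex U Λ N (ck Φ S b k) s0 :=
    Ex_sum (U := U) Λ N (Finset.Ico k1 s) (fun k => ck Φ S b k) s0
  have k3 : Rw U Λ N H s0 = Rw U Λ N (fun t => if t.1 = 0 then 1 else 0) s0 -
      Rw U Λ N (fun t => La a (Φ s) t.1) s0 := by
    rw [hH]
    exact Rw_sub Λ N (fun t => if t.1 = 0 then 1 else 0) (fun t => La a (Φ s) t.1) s0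
  have k4 : 0 ≤ Rw U Λ N (fun t => La a (Φ s) t.1) s0 :=
    Rw_nonneg Λ hU N (fun t _ => hS.mu0 s hs t.1) s0
  have k5 : |Ex U Λ N G0 s0| ≤ 2 * B * C * (Bx b k1).card := Ex_abs_le Λ hU N hG0b s0
  have k6 := hG0b s0
  have k7 : -((κ * s + 2 * C) * Ex U Λ N (one Λ) s0) ≤ Ex U Λ N (fun t => f t.1) s0 := by
    have h1 : ∀ t : MSt E, -(κ * s + 2 * C) * one Λ t ≤ f t.1 := by
      intro t
      unfold Pool.Agent.Helper99.MKV.one
      rw [hf]
      simp only
      by_cases ht : t.1 ∈ Λ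
      · rw [if_pos ht]
        have h2 := hS.plow t.1
        have h3 := hS.up s s hs le_rfl t.1 (bx_mono b (Nat.le_succ _) ht)
        linarith
      · rw [if_neg ht]
        have h2 := hS.out s hs t.1 (fun h => ht (bx_mono b (Nat.le_succ _) h))
        rw [h2]
        simp
    have h2 := Ex_mono Λ hU N h1 s0
    have h3 := congrFun (Ex_smul (U := U) Λ N (-(κ * s + 2 * C)) (one Λ)) s0
    rw [h3] at h2
    linarith
  have k8 : κ * s ≤ Φ s s0.1 := hS.low s s0.1
  have k9 : ∑ k ∈ Finset.Ico k1 s, (Ex U Λ N (ck Φ S b k) s0 - ck Φ S b k s0) ≤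
      ∑ k ∈ Finset.Ico k1 s, |Ex U Λ N (ck Φ S b k) s0 - ck Φ S b k s0| :=
    Finset.sum_le_sum fun k _ => le_abs_self _
  rw [Finset.sum_sub_distrib] at k9
  have k10 : F' s0 = φ s0.1 - Φ s s0.1 - G0 s0 - ∑ k ∈ Finset.Ico k1 s, ck Φ S b k s0 := rfl
  rw [k1', k2, k3, k10] at key
  have k11 := (abs_le.1 k5)
  have k12 := (abs_le.1 k6)
  linarith [k11.1, k11.2, k12.1, k12.2]

end Pool.Agent.Helper88.MKV
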